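import Mathlib

namespace Pool.Agent.Results.MP_a2bf4b_an.FloorMean

theorem result : ∃ F : ℝ → ℝ → ℝ,
    (∀ x y u v, F (F x y) (F u v) = F (F x u) (F y v)) ∧ (∀ x y, F x y = F y x) ∧
    (∀ y, StrictMono fun x => F x y) ∧ (∀ x, StrictMono fun y => F x y) ∧
    (∀ x ∈ Set.Ico (0 : ℝ) 1, F x x = x) ∧ F 1 1 ≠ 1 := by
  let F : ℝ → ℝ → ℝ := fun x y => ((⌊x⌋ + ⌊y⌋ : ℤ) : ℝ) + (Int.fract x + Int.fract y) / 2
  have h0 : ∀ x y : ℝ, 0 ≤ (Int.fract x + Int.fract y) / 2 ∧ (Int.fract x + Int.fract y) / 2 < 1 :=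
    fun x y => ⟨by linarith [Int.fract_nonneg x, Int.fract_nonneg y],
      by linarith [Int.fract_lt_one x, Int.fract_lt_one y]⟩
  have h1 : ∀ x y, ⌊F x y⌋ = ⌊x⌋ + ⌊y⌋ := fun x y => by
    simp only [F]
    rw [Int.floor_intCast_add, Int.floor_eq_zero_iff.2 (h0 x y), add_zero]
  have h2 : ∀ x y, Int.fract (F x y) = (Int.fract x + Int.fract y) / 2 := fun x y => by
    simp only [F]
    rw [Int.fract_intCast_add, Int.fract_eq_self.2 (h0 x y)]
  have hs : ∀ x y, F x y = F y x := fun x y => by simp only [F]; rw [add_comm ⌊x⌋, add_comm (Int.fract x)]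
  have hm : ∀ y, StrictMono fun x => F x y := fun y a b hab => by
    have h3 : (⌊a⌋ : ℝ) ≤ ⌊b⌋ := by exact_mod_cast Int.floor_mono hab.le
    simp only [F, Int.fract]
    push_cast
    linarith
  refine ⟨F, fun x y u v => ?_, hs, hm, fun x a b hab => ?_, fun x hx => ?_, ?_⟩
  · change ((⌊F x y⌋ + ⌊F u v⌋ : ℤ) : ℝ) + (Int.fract (F x y) + Int.fract (F u v)) / 2 =
      ((⌊F x u⌋ + ⌊F y v⌋ : ℤ) : ℝ) + (Int.fract (F x u) + Int.fract (F y v)) / 2
    simp only [h1, h2]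
    push_cast
    ring
  · simp only [hs x]; exact hm x hab
  · simp only [F]
    rw [Int.floor_eq_zero_iff.2 hx, Int.fract_eq_self.2 hx]
    simp
  · simp [F]

end Pool.Agent.Results.MP_a2bf4b_an.FloorMean
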